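import Pool.Agent.H313.TE.SubRep

/-!
# Absolute points and fibrations whose fibres have virtually solvable fundamental group

Let `X → S` be a dominant morphism of smooth complex varieties with connected general fibre `F`,
after shrinking a topological fibration, `G` the fundamental group of `X` and `N` the image in it of
the fundamental group of `F`. Let `L` be an absolute `ℚ̄`-point on `X`. Its monodromy representation
is (conjugate to) a semisimple representation `ρ` over the algebraic numbers.  The summands of the
restrictions of `L` to the finite étale coverings of `X` are absolute `ℚ̄`-points, too, and so are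
their determinants; these are of rank one, hence of finite order (the known case `r = 1`).

The theorem: if the image of `N` (for instance, `N` itself) is virtually solvable, then `ρ` is
trivial on `N ∩ U` for some subgroup `U` of finite index.  So `L` comes, on a finite étale covering
of `X`, from an absolute `ℚ̄`-point on a covering of `S`.  For `S` a point this says that absolute
`ℚ̄`-points with virtually solvable monodromy have finite monodromy, hence are of geometric origin.
-/

set_option autoImplicit false

open Matrix Module

namespace Pool.Agent.Results.MP_dcd452_ag.VirtuallySolvableFibres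

section defs

variable {G : Type} [Group G] {E : Type} [Field E] {n : ℕ}

/-- the matrix of `ρ g` -/
abbrev matrixOf (ρ : G →* GL (Fin n) E) (g : G) : Matrix (Fin n) (Fin n) E :=
  (ρ g : Matrix (Fin n) (Fin n) E)

/-- The subspace `W` is stable under the subgroup `U`. -/
def StableOn (ρ : G →* GL (Fin n) E) (U : Subgroup G) (W : Submodule E (Fin n → E)) : Prop :=
  ∀ g ∈ U, ∀ w ∈ W, matrixOf ρ g *ᵥ w ∈ W

/-- Every subspace stable under a subgroup of finite index has a stable complement. -/
def SemisimpleOnAll (ρ : G →* GL (Fin n) E) : Prop :=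
  ∀ U : Subgroup G, U.FiniteIndex → ∀ W, StableOn ρ U W → ∃ W', StableOn ρ U W' ∧ IsCompl W W'

/-- The determinants of the `ρ g` are `M`-th roots of unity for some `M > 0`. -/
def HasFiniteDet (ρ : G →* GL (Fin n) E) : Prop :=
  ∃ M : ℕ, 0 < M ∧ ∀ g, (matrixOf ρ g).det ^ M = 1

/-- `σ` is isomorphic to a subrepresentation of the restriction of `ρ` to `U`. -/
def IsSub {k : ℕ} (ρ : G →* GL (Fin n) E) (U : Subgroup G) (σ : U →* GL (Fin k) E) : Prop :=
  ∃ P : Matrix (Fin n) (Fin k) E, Function.Injective P.mulVec ∧
    ∀ u : U, matrixOf ρ u * P = P * matrixOf σ u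

/-- The subrepresentations of the restrictions of `ρ` to the subgroups of finite index have
determinants of finite order. -/
def FiniteDets (ρ : G →* GL (Fin n) E) : Prop :=
  ∀ U : Subgroup G, U.FiniteIndex → ∀ (k : ℕ) (σ : U →* GL (Fin k) E), IsSub ρ U σ →
    HasFiniteDet σ

/-- The image of `N` is virtually solvable: some subgroup `K` which meets `N` in a subgroup of
finite index of `N` has solvable image. -/
def SolvableImage (ρ : G →* GL (Fin n) E) (N : Subgroup G) : Prop :=
  ∃ K : Subgroup G, K.relIndex N ≠ 0 ∧ Group.IsSolvable (K.map ρ)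

/-- `ρ` is trivial on `N ∩ U` for some subgroup `U` of finite index. -/
def ComesFromBase (ρ : G →* GL (Fin n) E) (N : Subgroup G) : Prop :=
  ∃ U : Subgroup G, U.FiniteIndex ∧ ∀ h ∈ N ⊓ U, ρ h = 1

end defs

/-- The theorem. -/
theorem result (G : Type) [Group G] [Group.FG G] (N : Subgroup G) [hN : N.Normal] (n : ℕ)
    (ρ : G →* GL (Fin n) (AlgebraicClosure ℚ)) (hss : SemisimpleOnAll ρ)
    (hdet : FiniteDets ρ) :
    (SolvableImage ρ N ↔ ComesFromBase ρ N) ∧ (Finite (N.map ρ) ↔ ComesFromBase ρ N) :=
  ⟨⟨Pool.Agent.H313.TE.semi_base hN hss (Pool.Agent.H313.TE.dets_of hdet), Pool.Agent.H313.TE.solv_of_base⟩,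
    ⟨fun h => Pool.Agent.H313.TE.semi_base hN hss (Pool.Agent.H313.TE.dets_of hdet) (Pool.Agent.H313.TE.solv_of_finite h),
      Pool.Agent.H313.TE.finite_of_base⟩⟩

end Pool.Agent.Results.MP_dcd452_ag.VirtuallySolvableFibres
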